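import Pool.Agent.H207.TP.Stm2

/-!
# LINP: deformations are the solutions of the linearized equations (helper627 for helper207)
-/

set_option autoImplicit false

open Polynomial

namespace Pool.Agent.H627.TP207

open Pool.Agent.H207.TP

lemma hd_der (N : ℂ[X]) (j : ℕ) :
    hasseDeriv j (derivative N) = ((j : ℂ[X]) + 1) * hasseDeriv (j + 1) N := by
  have h1 := congrArg (fun f => f N) (hasseDeriv_comp (R := ℂ) j 1)
  simp only [LinearMap.comp_apply, LinearMap.smul_apply, hasseDeriv_one] at h1
  rw [h1, Nat.choose_symm_add, Nat.choose_one_right, nsmul_eq_mul]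
  push_cast
  rfl

lemma eqP_eq (T H : ℂ[X]) (e κ : ℂ) (j : ℕ) :
    eqP T H e κ j = ((j : ℂ) + 1) *
      (hasseDeriv (j + 1) (H - C (H.eval e) + C κ * derivative T)).eval e := by
  have h1 : hasseDeriv (j + 1) (H - C (H.eval e) + C κ * derivative T) =
      hasseDeriv (j + 1) H + C κ * hasseDeriv (j + 1) (derivative T) := by
    rw [map_add, map_sub, hasseDeriv_C _ _ (Nat.succ_pos j), sub_zero, ← smul_eq_C_mul, map_smul,
      smul_eq_C_mul]
  unfold eqP
  rw [hd_der, h1]
  simp only [eval_mul, eval_add, eval_natCast, eval_one, eval_C]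
  ring

theorem t_LINP : S_LINP := by
  intro T H e κ _ h0
  rw [Pool.Agent.H207.TF.dvd_iff_hasse]
  constructor
  · intro h j hj
    rw [eqP_eq]
    have h1 := h ⟨j + 1, by omega⟩
    rw [h1, mul_zero]
  · rintro h ⟨j, hj⟩
    rcases j with _ | j
    · show (hasseDeriv 0 (H - C (H.eval e) + C κ * derivative T)).eval e = 0
      rw [hasseDeriv_zero']
      simp only [eval_add, eval_sub, eval_C, eval_mul, h0]
      ring
    · show (hasseDeriv (j + 1) (H - C (H.eval e) + C κ * derivative T)).eval e = 0
      have h1 := h j (by omega)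
      rw [eqP_eq] at h1
      rcases mul_eq_zero.1 h1 with h2 | h2
      · exact absurd h2 (by exact_mod_cast Nat.succ_ne_zero j)
      · exact h2

end Pool.Agent.H627.TP207
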